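import Mathlib

/-!
# The shift graph on infinite sets of natural numbers: definitions and the colouring of
non-dominating sets
-/

open Set Topology

namespace Pool.Agent.Q306.SG

/-- The space `[ℕ]^ℕ` of infinite subsets of `ℕ`, as a subspace of `2^ℕ` (a set is identified with
its characteristic function). -/
abbrev InfSets : Type := {y : ℕ → Bool // {n : ℕ | y n = true}.Infinite}

/-- The least element of an infinite set. -/
noncomputable def mn (y : InfSets) : ℕ := sInf {n : ℕ | y.1 n = true}

theorem mn_mem (y : InfSets) : y.1 (mn y) = true :=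
  Nat.sInf_mem (s := {n : ℕ | y.1 n = true}) y.2.nonempty

theorem mn_le {y : InfSets} {n : ℕ} (h : y.1 n = true) : mn y ≤ n :=
  Nat.sInf_le (s := {n : ℕ | y.1 n = true}) h

theorem shift_aux (y : InfSets) :
    {n : ℕ | (y.1 n && decide (n ≠ mn y)) = true}.Infinite := by
  have h : {n : ℕ | (y.1 n && decide (n ≠ mn y)) = true} = {n : ℕ | y.1 n = true} \ {mn y} := by
    ext n; simp
  rw [h]
  exact y.2.sdiff (Set.finite_singleton _)

/-- The shift map `S(y) = y \ {min y}`. -/
noncomputable def shift (y : InfSets) : InfSets :=
  ⟨fun n => y.1 n && decide (n ≠ mn y), shift_aux y⟩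

/-- The shift graph. -/
def shiftGraph : SimpleGraph InfSets where
  Adj y z := y ≠ z ∧ (z = shift y ∨ y = shift z)
  symm := ⟨fun _ _ h => ⟨h.1.symm, h.2.symm⟩⟩
  loopless := ⟨fun _ h => h.1 rfl⟩

/-- `shiftGraph` restricted to `A` has a Borel `k`-colouring. -/
def BorelColorable (A : Set InfSets) (k : ℕ) : Prop :=
  ∃ c : A → Fin k, Measurable c ∧ ∀ y z : A, shiftGraph.Adj y.1 z.1 → c y ≠ c z

theorem shift_apply (y : InfSets) (n : ℕ) :
    (shift y).1 n = true ↔ y.1 n = true ∧ n ≠ mn y := by
  simp [shift]

theorem mn_lt_mn_shift (y : InfSets) : mn y < mn (shift y) := by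
  have h := (shift_apply y _).1 (mn_mem (shift y))
  exact lt_of_le_of_ne (mn_le h.1) (Ne.symm h.2)

/-- The `n`-th element of an infinite set. -/
noncomputable def el (y : InfSets) (n : ℕ) : ℕ := mn (shift^[n] y)

theorem el_shift (y : InfSets) (n : ℕ) : el (shift y) n = el y (n + 1) := by
  simp [el, Function.iterate_succ]

theorem el_iter (y : InfSets) (k n : ℕ) : el (shift^[k] y) n = el y (n + k) := by
  simp [el, Function.iterate_add_apply]

theorem el_lt_succ (y : InfSets) (n : ℕ) : el y n < el y (n + 1) := by
  simp only [el, Function.iterate_succ_apply']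
  exact mn_lt_mn_shift _

theorem el_strictMono (y : InfSets) : StrictMono (el y) := strictMono_nat_of_lt_succ (el_lt_succ y)

theorem continuous_mn : Continuous mn := by
  rw [continuous_discrete_rng]
  intro m
  have h : mn ⁻¹' {m} = {y : InfSets | y.1 m = true} ∩ ⋂ k ∈ Finset.range m,
      {y : InfSets | y.1 k = false} := by
    ext y
    simp only [mem_preimage, mem_singleton_iff, mem_inter_iff, mem_ofPred_eq, mem_iInter,
      Finset.mem_range]
    constructor
    · rintro rfl
      refine ⟨mn_mem y, fun k hk => ?_⟩
      by_contra hne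
      have : y.1 k = true := by simpa using hne
      exact absurd (mn_le this) (not_le.2 hk)
    · rintro ⟨h1, h2⟩
      refine le_antisymm (mn_le h1) ?_
      by_contra hlt
      have := h2 _ (not_le.1 hlt)
      rw [mn_mem y] at this
      exact absurd this (by decide)
  rw [h]
  have hc : ∀ (k : ℕ) (b : Bool), IsOpen {y : InfSets | y.1 k = b} := by
    intro k b
    have : Continuous (fun y : InfSets => y.1 k) := (continuous_apply k).comp continuous_subtype_val
    exact (continuous_discrete_rng.1 this) b
  exact (hc _ _).inter (isOpen_biInter_finset fun k _ => hc k _)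

theorem continuous_shift : Continuous shift := by
  refine Continuous.subtype_mk ?_ _
  refine continuous_pi fun n => ?_
  have h1 : Continuous (fun y : InfSets => (y.1 n, mn y)) :=
    ((continuous_apply n).comp continuous_subtype_val).prodMk continuous_mn
  have h2 : Continuous (fun p : Bool × ℕ => p.1 && decide (n ≠ p.2)) := continuous_of_discreteTopology
  exact h2.comp h1

theorem continuous_shift_iterate (k : ℕ) : Continuous (shift^[k]) := continuous_shift.iterate k

theorem continuous_el (n : ℕ) : Continuous (fun y => el y n) :=
  continuous_mn.comp (continuous_shift_iterate n)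

/-! ### The colouring of `{y : y does not dominate g}` -/

/-- The sets not dominating `g`. -/
def ND (g : ℕ → ℕ) : Set InfSets := {y | ∃ n, el y n < g n}

theorem isOpen_ND (g : ℕ → ℕ) : IsOpen (ND g) := by
  have : ND g = ⋃ n, {y | el y n < g n} := by ext; simp [ND]
  rw [this]
  refine isOpen_iUnion fun n => ?_
  exact isOpen_lt (continuous_el n) continuous_const

theorem BorelColorable.mono {A A' : Set InfSets} (h : A ⊆ A') {k : ℕ} (hc : BorelColorable A' k) :
    BorelColorable A k := by
  obtain ⟨c, hm, hc⟩ := hc
  exact ⟨fun y => c (Set.inclusion h y), hm.comp (measurable_inclusion h), fun y z hyz =>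
    hc (Set.inclusion h y) (Set.inclusion h z) hyz⟩

section
variable {g : ℕ → ℕ} (hg : StrictMono g)
include hg

theorem idx_ex (m : ℕ) : ∃ n, m < g n := ⟨m + 1, lt_of_lt_of_le (Nat.lt_succ_self m) (hg.id_le _)⟩

omit hg in
/-- The index of the interval of `g` containing `m`. -/
noncomputable def idx (g : ℕ → ℕ) (m : ℕ) : ℕ := sInf {n | m < g n}

theorem idx_le_iff (m n : ℕ) : idx g m ≤ n ↔ m < g n := by
  constructor
  · intro h
    have h1 : m < g (idx g m) := Nat.sInf_mem (s := {n | m < g n}) (idx_ex hg m)
    exact lt_of_lt_of_le h1 (hg.monotone h)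
  · intro h
    exact Nat.sInf_le (s := {n | m < g n}) h

theorem idx_mono : Monotone (idx g) := by
  intro a b hab
  rw [idx_le_iff hg]
  exact lt_of_le_of_lt hab ((idx_le_iff hg b _).1 le_rfl)

omit hg in
/-- First colour. -/
noncomputable def col (g : ℕ → ℕ) (y : InfSets) : Bool := decide (idx g (el y 0) = idx g (el y 1))

omit hg in
theorem continuous_col (g : ℕ → ℕ) : Continuous (col g) := by
  have h1 : Continuous (fun y : InfSets => (el y 0, el y 1)) :=
    (continuous_el 0).prodMk (continuous_el 1)
  have h2 : Continuous (fun p : ℕ × ℕ => decide (idx g p.1 = idx g p.2)) :=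
    continuous_of_discreteTopology
  exact h2.comp h1

omit hg in
/-- The stopping condition. -/
def stop (g : ℕ → ℕ) (y : InfSets) (r : ℕ) : Prop :=
  1 ≤ r ∧ (col g (shift^[r] y) ≠ col g y ∨ shift^[r] y ∉ ND g)

theorem exists_stop (y : InfSets) : ∃ r, stop g y r := by
  by_contra hcon
  have hcon' : ∀ r, 1 ≤ r → col g (shift^[r] y) = col g y ∧ shift^[r] y ∈ ND g := by
    intro r hr
    constructor
    · by_contra h
      exact hcon ⟨r, hr, Or.inl h⟩
    · by_contra h
      exact hcon ⟨r, hr, Or.inr h⟩
  have hcol : ∀ r, col g (shift^[r] y) = col g y := by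
    intro r
    rcases Nat.eq_zero_or_pos r with rfl | hr
    · rfl
    · exact (hcon' r hr).1
  have hcolr : ∀ r, col g (shift^[r] y) = decide (idx g (el y r) = idx g (el y (r + 1))) := by
    intro r
    simp only [col, el_iter]
    rw [zero_add, add_comm]
  by_cases hy : col g y = true
  · have h1 : ∀ n, idx g (el y n) = idx g (el y 0) := by
      intro n
      induction n with
      | zero => rfl
      | succ n ih =>
        have := hcol n
        rw [hcolr, hy] at this
        rw [← of_decide_eq_true this, ih]
    have h2 : ∀ n, el y n < g (idx g (el y 0)) := by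
      intro n
      exact (idx_le_iff hg _ _).1 (h1 n).le
    have h3 := h2 (g (idx g (el y 0)))
    exact absurd ((el_strictMono y).id_le (g (idx g (el y 0)))) (not_le.2 h3)
  · have hy' : col g y = false := by simpa using hy
    have h1 : ∀ n, n ≤ idx g (el y n) := by
      intro n
      induction n with
      | zero => exact Nat.zero_le _
      | succ n ih =>
        have := hcol n
        rw [hcolr, hy'] at this
        have hne := of_decide_eq_false this
        have hle := idx_mono hg (el_lt_succ y n).le
        omega
    obtain ⟨n, hn⟩ := (hcon' 1 le_rfl).2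
    rw [el_iter, ← idx_le_iff hg] at hn
    have := h1 (n + 1)
    omega

theorem colorable_of_strictMono : BorelColorable (ND g) 4 := by
  classical
  let r : InfSets → ℕ := fun y => Nat.find (exists_stop hg y)
  have hr_meas : Measurable r := by
    refine measurable_find _ fun k => ?_
    have e1 : MeasurableSet {y : InfSets | col g (shift^[k] y) ≠ col g y} := by
      have h1 : Continuous (fun y : InfSets => (col g (shift^[k] y), col g y)) :=
        ((continuous_col g).comp (continuous_shift_iterate k)).prodMk (continuous_col g)
      have h2 : IsOpen ((fun y : InfSets => (col g (shift^[k] y), col g y)) ⁻¹'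
        {p : Bool × Bool | p.1 ≠ p.2}) := h1.isOpen_preimage _ (isOpen_discrete _)
      exact h2.measurableSet
    have e2 : MeasurableSet {y : InfSets | shift^[k] y ∉ ND g} :=
      ((isOpen_ND g).preimage (continuous_shift_iterate k)).measurableSet.compl
    have : {y : InfSets | stop g y k} = {y : InfSets | 1 ≤ k} ∩
        ({y : InfSets | col g (shift^[k] y) ≠ col g y} ∪ {y : InfSets | shift^[k] y ∉ ND g}) := by
      ext y; simp [stop]
    rw [this]
    exact (MeasurableSet.const _).inter (e1.union e2)
  let c : InfSets → Bool × Bool := fun y => (col g y, decide (r y % 2 = 0))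
  have hc_meas : Measurable c := by
    refine Measurable.prodMk (continuous_col g).measurable ?_
    exact (measurable_of_countable (fun n : ℕ => decide (n % 2 = 0))).comp hr_meas
  have key : ∀ y : InfSets, y ∈ ND g → shift y ∈ ND g → c y ≠ c (shift y) := by
    intro y _ hz heq
    have h1 : col g y = col g (shift y) := congrArg Prod.fst heq
    have h2 : decide (r y % 2 = 0) = decide (r (shift y) % 2 = 0) := congrArg Prod.snd heq
    have hspec : stop g y (r y) := Nat.find_spec (exists_stop hg y)
    have hspec' : stop g (shift y) (r (shift y)) := Nat.find_spec (exists_stop hg (shift y))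
    have hne1 : r y ≠ 1 := by
      intro h
      rw [h] at hspec
      rcases hspec.2 with h' | h'
      · exact h' h1.symm
      · exact h' hz
    have hlt : 1 < r y := lt_of_le_of_ne hspec.1 (Ne.symm hne1)
    have hle1 : r (shift y) ≤ r y - 1 := by
      refine Nat.find_min' _ ?_
      refine ⟨by omega, ?_⟩
      have e : shift^[r y - 1] (shift y) = shift^[r y] y := by
        rw [← Function.iterate_succ_apply]
        congr 1
        omega
      rw [e, ← h1]
      exact hspec.2
    have hle2 : r y ≤ r (shift y) + 1 := by
      refine Nat.find_min' _ ?_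
      refine ⟨by omega, ?_⟩
      rw [Function.iterate_succ_apply, h1]
      exact hspec'.2
    have hr : r y = r (shift y) + 1 := by omega
    have h3 : (r y % 2 = 0) ↔ (r (shift y) % 2 = 0) := decide_eq_decide.1 h2
    omega
  let φ : Bool × Bool → Fin 4 := fun p => ⟨2 * p.1.toNat + p.2.toNat, by
    rcases p with ⟨a, b⟩; cases a <;> cases b <;> simp⟩
  have hφ : Function.Injective φ := by
    rintro ⟨a, b⟩ ⟨a', b'⟩ h
    cases a <;> cases b <;> cases a' <;> cases b' <;> simp_all [φ]
  refine ⟨fun y => φ (c y.1), ?_, ?_⟩
  · exact (measurable_of_countable φ).comp (hc_meas.comp measurable_subtype_coe)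
  · rintro ⟨y, hy⟩ ⟨z, hz⟩ ⟨_, h | h⟩ heq
    · change z = shift y at h
      subst h
      exact key y hy hz (hφ heq)
    · change y = shift z at h
      subst h
      exact key z hz hy (hφ heq.symm)

end

/-- Sets of reals not dominating a fixed function induce a subgraph of the shift graph with a Borel
4-colouring. -/
theorem colorable_ND (g : ℕ → ℕ) : BorelColorable (ND g) 4 := by
  let g' : ℕ → ℕ := fun n => ∑ i ∈ Finset.range (n + 1), (g i + 1)
  have hg' : StrictMono g' := by
    refine strictMono_nat_of_lt_succ fun n => ?_
    simp only [g']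
    rw [Finset.sum_range_succ _ (n + 1)]
    omega
  have hle : ∀ n, g n ≤ g' n := by
    intro n
    simp only [g']
    rw [Finset.sum_range_succ]
    omega
  refine (colorable_of_strictMono hg').mono ?_
  rintro y ⟨n, hn⟩
  exact ⟨n, lt_of_lt_of_le hn (hle n)⟩

end Pool.Agent.Q306.SG
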