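import Pool.Agent.Q306.SG.Game

/-!
# Diagonalisation against Borel functions
-/

open Set Topology Filter MeasureTheory

namespace Pool.Agent.Q306.SG

/-- An analytic set is the projection of a closed set. -/
theorem exists_closed_proj {D : Set (ℕ → ℕ)} (hD : AnalyticSet D) :
    ∃ C : Set ((ℕ → ℕ) × (ℕ → ℕ)), IsClosed C ∧ ∀ x, x ∈ D ↔ ∃ b, (x, b) ∈ C := by
  rw [AnalyticSet] at hD
  rcases hD with rfl | ⟨f, hf, rfl⟩
  · exact ⟨∅, isClosed_empty, fun x => by simp⟩
  · refine ⟨{p | f p.2 = p.1}, isClosed_eq (hf.comp continuous_snd) continuous_fst, fun x => ?_⟩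
    simp [mem_range]

open Classical in
/-- The point coding the trees of the closed sets `C 0` and `C 1`. -/
noncomputable def code (C : ℕ → Set ((ℕ → ℕ) × (ℕ → ℕ))) (m : ℕ) : ℕ :=
  if ∃ i u v, m = enc i u v ∧ ∃ x b, (x, b) ∈ C i ∧ rp x u.length = u ∧ rp b v.length = v
  then 0 else 1

theorem code_enc (C : ℕ → Set ((ℕ → ℕ) × (ℕ → ℕ))) (i : ℕ) (u v : List ℕ) :
    code C (enc i u v) = 0 ↔ ∃ x b, (x, b) ∈ C i ∧ rp x u.length = u ∧ rp b v.length = v := by
  unfold code
  split_ifs with h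
  · obtain ⟨i', u', v', he, h⟩ := h
    obtain ⟨rfl, rfl, rfl⟩ := enc_inj he
    simpa using h
  · constructor
    · intro h'; exact absurd h' (by decide)
    · intro h'
      exact absurd ⟨i, u, v, rfl, h'⟩ h

theorem mem_of_branch (C : ℕ → Set ((ℕ → ℕ) × (ℕ → ℕ))) (i : ℕ) (hC : IsClosed (C i))
    (b : ℕ → ℕ) (h : ∀ k, InT i (code C) (rp b k)) : (code C, b) ∈ C i := by
  have h1 : ∀ k, ∃ x b', (x, b') ∈ C i ∧ (∀ n < k, x n = code C n) ∧ ∀ n < k, b' n = b n := by
    intro k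
    have h2 : code C (enc i (rp (code C) k) (rp b k)) = 0 := by
      cases k with
      | zero => exact h 0
      | succ k =>
        have := (h (k + 1)).2
        rwa [rp_length] at this
    obtain ⟨x, b', hx, h3, h4⟩ := (code_enc C i _ _).1 h2
    rw [rp_length, rp_eq_iff] at h3 h4
    exact ⟨x, b', hx, h3, h4⟩
  choose X B hXB hX hB using h1
  have hlim : Tendsto (fun k => (X k, B k)) atTop (𝓝 (code C, b)) := by
    refine Tendsto.prodMk_nhds ?_ ?_
    · rw [tendsto_pi_nhds]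
      intro n
      rw [nhds_discrete ℕ, tendsto_pure]
      filter_upwards [eventually_gt_atTop n] with k hk
      exact hX k n hk
    · rw [tendsto_pi_nhds]
      intro n
      rw [nhds_discrete ℕ, tendsto_pure]
      filter_upwards [eventually_gt_atTop n] with k hk
      exact hB k n hk
  exact hC.mem_of_tendsto hlim (Eventually.of_forall hXB)

theorem branch_of_mem (C : ℕ → Set ((ℕ → ℕ) × (ℕ → ℕ))) (i : ℕ)
    (b : ℕ → ℕ) (h : (code C, b) ∈ C i) (k : ℕ) : InT i (code C) (rp b k) := by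
  induction k with
  | zero => exact (code_enc C i [] []).2 ⟨_, _, h, rfl, rfl⟩
  | succ k ih =>
    refine ⟨ih, ?_⟩
    rw [rp_length]
    exact (code_enc C i (rp (code C) (k + 1)) (rp b (k + 1))).2
      ⟨_, _, h, by rw [rp_length], by rw [rp_length]⟩

theorem hI_rp (σ : List ℕ → ℕ) (β : ℕ → ℕ) (k : ℕ) :
    hI σ (rp β k) = rp (fun k => σ (rp β k)) (k + 1) := by
  induction k with
  | zero => rfl
  | succ k ih => simp only [rp, hI] at ih ⊢; rw [ih]

theorem hII_rp (σ : List ℕ → ℕ) (α : ℕ → ℕ) (k : ℕ) :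
    hII σ (rp α k) = rp (fun k => σ (rp α (k + 1))) k := by
  induction k with
  | zero => rfl
  | succ k ih => simp only [rp, hII] at ih ⊢; rw [ih]

/-- There is no Borel uniformization of `PII ∪ PI`. -/
theorem no_uniformization (f : (ℕ → ℕ) → InfSets) (hf : Measurable f)
    (h : ∀ x, (x, f x) ∈ PII ∪ PI) : False := by
  let D : Set (ℕ → ℕ) := {x | (x, f x) ∉ PII}
  have hDm : MeasurableSet D :=
    (measurable_id.prodMk hf) (isClosed_PII.measurableSet.compl)
  obtain ⟨C1, hC1, hC1'⟩ := exists_closed_proj hDm.analyticSet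
  obtain ⟨C0, hC0, hC0'⟩ := exists_closed_proj hDm.compl.analyticSet
  let C : ℕ → Set ((ℕ → ℕ) × (ℕ → ℕ)) := fun i => if i = 0 then C0 else C1
  have e0 : C 0 = C0 := rfl
  have e1 : C 1 = C1 := rfl
  by_cases hc : code C ∈ D
  · obtain ⟨b, hb, -⟩ : (code C, f (code C)) ∈ PI := (h (code C)).resolve_left hc
    obtain ⟨β, hβ⟩ := (hC1' _).1 hc
    have h1 : ∀ k, InT 1 (code C) (rp β k) := branch_of_mem C 1 β (e1 ▸ hβ)
    have h2 : ∀ k, InT 0 (code C) (rp (fun k => stg b (rp β k)) k) := by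
      intro k
      have := hb.2 _ (h1 k)
      rw [hI_rp] at this
      exact this.1
    have h3 := mem_of_branch C 0 (e0 ▸ hC0) _ h2
    exact (hC0' _).2 ⟨_, e0 ▸ h3⟩ hc
  · have hP : (code C, f (code C)) ∈ PII := not_not.1 hc
    obtain ⟨b, hb, -⟩ := hP
    obtain ⟨α, hα⟩ := (hC0' _).1 hc
    have h1 : ∀ k, InT 0 (code C) (rp α k) := branch_of_mem C 0 α (e0 ▸ hα)
    have h2 : ∀ k, InT 1 (code C) (rp (fun k => stg b (rp α (k + 1))) k) := by
      intro k
      have := hb.2 _ (h1 k)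
      rwa [hII_rp] at this
    have h3 := mem_of_branch C 1 (e1 ▸ hC1) _ h2
    exact hc ((hC1' _).2 ⟨_, e1 ▸ h3⟩)

/-- The complement of `PII ∪ PI` has sections of Borel chromatic number at most four. -/
theorem colorable_section (x : ℕ → ℕ) : BorelColorable {y | (x, y) ∉ PII ∪ PI} 4 := by
  obtain ⟨b, hb⟩ := exists_win x
  refine (colorable_ND b).mono ?_
  intro y hy
  by_contra hcon
  have hdom : ∀ n, b n ≤ el y n := by
    intro n
    by_contra hn
    exact hcon ⟨n, not_le.1 hn⟩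
  rcases hb with hb | hb
  · exact hy (Or.inl ⟨b, hb, hdom⟩)
  · exact hy (Or.inr ⟨b, hb, hdom⟩)

end Pool.Agent.Q306.SG
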