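import Pool.Agent.Q306.SG.Basic

/-!
# Pairs of trees, the associated games, and their strategies

Finite sequences are lists in reversed order (the head is the newest entry).
-/

open Set Topology Filter

namespace Pool.Agent.Q306.SG

/-- The reversed initial segment `[x (k-1), …, x 0]`. -/
def rp (x : ℕ → ℕ) : ℕ → List ℕ
  | 0 => []
  | k + 1 => x k :: rp x k

theorem rp_length (x : ℕ → ℕ) (k : ℕ) : (rp x k).length = k := by
  induction k with
  | zero => rfl
  | succ k ih => simp [rp, ih]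

theorem rp_eq_iff (x y : ℕ → ℕ) (k : ℕ) : rp x k = rp y k ↔ ∀ n < k, x n = y n := by
  induction k with
  | zero => simp [rp]
  | succ k ih =>
    simp only [rp, List.cons.injEq, ih]
    constructor
    · rintro ⟨h1, h2⟩ n hn
      rcases Nat.lt_succ_iff_lt_or_eq.1 hn with h | rfl
      · exact h2 n h
      · exact h1
    · intro h
      exact ⟨h k (Nat.lt_succ_self k), fun n hn => h n (Nat.lt_succ_of_lt hn)⟩

/-- Coding of triples. -/
def enc (i : ℕ) (u v : List ℕ) : ℕ := Encodable.encode (i, u, v)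

theorem enc_inj {i i' : ℕ} {u u' v v' : List ℕ} (h : enc i u v = enc i' u' v') :
    i = i' ∧ u = u' ∧ v = v' := by
  have := Encodable.encode_injective h
  simpa using this

/-- The `i`-th tree coded by `x`. -/
def InT (i : ℕ) (x : ℕ → ℕ) : List ℕ → Prop
  | [] => x (enc i [] []) = 0
  | n :: s => InT i x s ∧ x (enc i (rp x (s.length + 1)) (n :: s)) = 0

/-- The strategy coded by `b`. -/
def stg (b : ℕ → ℕ) (s : List ℕ) : ℕ := b (Encodable.encode s + 1)

/-- Answers of the second player to the moves `s`. -/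
def hII (σ : List ℕ → ℕ) : List ℕ → List ℕ
  | [] => []
  | n :: s => σ (n :: s) :: hII σ s

/-- Moves of the first player against the moves `t`. -/
def hI (σ : List ℕ → ℕ) : List ℕ → List ℕ
  | [] => [σ []]
  | m :: t => σ (m :: t) :: hI σ t

/-- `b` codes a winning strategy for the second player. -/
def WinII (x b : ℕ → ℕ) : Prop :=
  b 0 = 0 ∧ ∀ s, InT 0 x s → InT 1 x (hII (stg b) s)

/-- `b` codes a winning strategy for the first player. -/
def WinI (x b : ℕ → ℕ) : Prop :=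
  b 0 = 1 ∧ ∀ t, InT 1 x t → InT 0 x (hI (stg b) t)

/-- `b` codes a winning strategy of one of the players. -/
def Win (x b : ℕ → ℕ) : Prop := WinII x b ∨ WinI x b

theorem InT.nil {i : ℕ} {x : ℕ → ℕ} {s : List ℕ} (h : InT i x s) : InT i x [] := by
  induction s with
  | nil => exact h
  | cons n s ih => exact ih h.1

/-- Every function `List ℕ → ℕ` together with a flag is coded. -/
theorem exists_code (f : ℕ) (σ : List ℕ → ℕ) : ∃ b : ℕ → ℕ, b 0 = f ∧ stg b = σ := by
  refine ⟨fun n => match n with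
    | 0 => f
    | m + 1 => match (Encodable.decode m : Option (List ℕ)) with
      | some s => σ s
      | none => 0, rfl, ?_⟩
  funext s
  simp [stg]

/-! ### Determinacy -/

section det
variable (T0 T1 : List ℕ → Prop)

/-- Post-fixed relations. -/
def Post (Q : List ℕ → List ℕ → Prop) : Prop :=
  ∀ s t, Q s t → ∀ n, T0 (n :: s) → ∃ m, T1 (m :: t) ∧ Q (n :: s) (m :: t)

/-- The second player can win from the position `(s, t)`. -/
def W (s t : List ℕ) : Prop := ∃ Q, Post T0 T1 Q ∧ Q s t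

variable {T0 T1}

theorem W.step {s t : List ℕ} (h : W T0 T1 s t) (n : ℕ) (hn : T0 (n :: s)) :
    ∃ m, T1 (m :: t) ∧ W T0 T1 (n :: s) (m :: t) := by
  obtain ⟨Q, hQ, hst⟩ := h
  obtain ⟨m, hm, hm'⟩ := hQ s t hst n hn
  exact ⟨m, hm, Q, hQ, hm'⟩

theorem W.of_step {s t : List ℕ}
    (h : ∀ n, T0 (n :: s) → ∃ m, T1 (m :: t) ∧ W T0 T1 (n :: s) (m :: t)) : W T0 T1 s t := by
  refine ⟨fun s' t' => W T0 T1 s' t' ∨ (s' = s ∧ t' = t), ?_, Or.inr ⟨rfl, rfl⟩⟩
  rintro s' t' (h' | ⟨rfl, rfl⟩) n hn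
  · obtain ⟨m, hm, hm'⟩ := h'.step n hn
    exact ⟨m, hm, Or.inl hm'⟩
  · obtain ⟨m, hm, hm'⟩ := h n hn
    exact ⟨m, hm, Or.inl hm'⟩

open Classical in
/-- The answers of the second player following the winning region. -/
noncomputable def tt (T0 T1 : List ℕ → Prop) : List ℕ → List ℕ
  | [] => []
  | n :: s => (if h : ∃ m, T1 (m :: tt T0 T1 s) ∧ W T0 T1 (n :: s) (m :: tt T0 T1 s)
      then h.choose else 0) :: tt T0 T1 s

open Classical in
/-- The moves of the first player following the complement of the winning region. -/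
noncomputable def ss (T0 T1 : List ℕ → Prop) : List ℕ → List ℕ
  | [] => [if h : ∃ n, T0 [n] ∧ ∀ m, T1 [m] → ¬ W T0 T1 [n] [m] then h.choose else 0]
  | m :: t => (if h : ∃ n, T0 (n :: ss T0 T1 t) ∧
      ∀ m', T1 (m' :: m :: t) → ¬ W T0 T1 (n :: ss T0 T1 t) (m' :: m :: t)
      then h.choose else 0) :: ss T0 T1 t

theorem hII_tt (s : List ℕ) : hII (fun s => (tt T0 T1 s).headI) s = tt T0 T1 s := by
  induction s with
  | nil => rfl
  | cons n s ih => simp [hII, ih, tt]

theorem hI_ss (t : List ℕ) : hI (fun t => (ss T0 T1 t).headI) t = ss T0 T1 t := by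
  induction t with
  | nil => simp [hI, ss]
  | cons n s ih => simp [hI, ih, ss]

theorem tt_spec (h0 : ∀ n s, T0 (n :: s) → T0 s) (h1 : T1 []) (hW : W T0 T1 [] []) (s : List ℕ)
    (hs : T0 s) : T1 (tt T0 T1 s) ∧ W T0 T1 s (tt T0 T1 s) := by
  induction s with
  | nil => exact ⟨h1, hW⟩
  | cons n s ih =>
    have h := (ih (h0 n s hs)).2.step n hs
    have h' := h.choose_spec
    simp only [tt, dif_pos h]
    exact h'

theorem ss_spec (h1 : ∀ n s, T1 (n :: s) → T1 s) (hW : ¬ W T0 T1 [] []) (t : List ℕ)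
    (ht : T1 t) : T0 (ss T0 T1 t) ∧ ∀ m, T1 (m :: t) → ¬ W T0 T1 (ss T0 T1 t) (m :: t) := by
  induction t with
  | nil =>
    have h : ∃ n, T0 [n] ∧ ∀ m, T1 [m] → ¬ W T0 T1 [n] [m] := by
      by_contra hcon
      push Not at hcon
      exact hW (W.of_step hcon)
    have h' := h.choose_spec
    simp only [ss, dif_pos h]
    exact h'
  | cons m t ih =>
    have h2 := (ih (h1 m t ht)).2 m ht
    have h : ∃ n, T0 (n :: ss T0 T1 t) ∧
        ∀ m', T1 (m' :: m :: t) → ¬ W T0 T1 (n :: ss T0 T1 t) (m' :: m :: t) := by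
      by_contra hcon
      push Not at hcon
      exact h2 (W.of_step hcon)
    have h' := h.choose_spec
    simp only [ss, dif_pos h]
    exact h'

end det

/-- One of the players has a winning strategy. -/
theorem exists_win (x : ℕ → ℕ) : ∃ b, Win x b := by
  by_cases h0 : InT 0 x []
  · by_cases h1 : InT 1 x []
    · by_cases hW : W (InT 0 x) (InT 1 x) [] []
      · obtain ⟨b, hb0, hb⟩ := exists_code 0 (fun s => (tt (InT 0 x) (InT 1 x) s).headI)
        refine ⟨b, Or.inl ⟨hb0, fun s hs => ?_⟩⟩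
        rw [hb, hII_tt]
        exact (tt_spec (fun n s h => h.1) h1 hW s hs).1
      · obtain ⟨b, hb0, hb⟩ := exists_code 1 (fun s => (ss (InT 0 x) (InT 1 x) s).headI)
        refine ⟨b, Or.inr ⟨hb0, fun s hs => ?_⟩⟩
        rw [hb, hI_ss]
        exact (ss_spec (fun n s h => h.1) hW s hs).1
    · obtain ⟨b, hb0, -⟩ := exists_code 1 (fun _ => 0)
      exact ⟨b, Or.inr ⟨hb0, fun t ht => absurd ht.nil h1⟩⟩
  · obtain ⟨b, hb0, -⟩ := exists_code 0 (fun _ => 0)
    exact ⟨b, Or.inl ⟨hb0, fun t ht => absurd ht.nil h0⟩⟩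

/-! ### Dependence on finitely many coordinates -/

section ev
variable {α : Type*} {l : Filter α} {X B : α → ℕ → ℕ} {x b : ℕ → ℕ}

theorem ev_rp (hx : ∀ n, ∀ᶠ q in l, X q n = x n) (k : ℕ) : ∀ᶠ q in l, rp (X q) k = rp x k := by
  induction k with
  | zero => exact Eventually.of_forall fun _ => rfl
  | succ k ih =>
    filter_upwards [ih, hx k] with q h1 h2
    simp [rp, h1, h2]

theorem ev_InT (hx : ∀ n, ∀ᶠ q in l, X q n = x n) (i : ℕ) (s : List ℕ) :
    ∀ᶠ q in l, (InT i (X q) s ↔ InT i x s) := by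
  induction s with
  | nil =>
    filter_upwards [hx (enc i [] [])] with q h
    simp [InT, h]
  | cons n s ih =>
    filter_upwards [ih, ev_rp hx (s.length + 1), hx (enc i (rp x (s.length + 1)) (n :: s))]
      with q h1 h2 h3
    simp only [InT, h1, h2, h3]

theorem ev_hII (hb : ∀ n, ∀ᶠ q in l, B q n = b n) (s : List ℕ) :
    ∀ᶠ q in l, hII (stg (B q)) s = hII (stg b) s := by
  induction s with
  | nil => exact Eventually.of_forall fun _ => rfl
  | cons n s ih =>
    filter_upwards [ih, hb (Encodable.encode (n :: s) + 1)] with q h1 h2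
    simp only [hII, h1, stg, h2]

theorem ev_hI (hb : ∀ n, ∀ᶠ q in l, B q n = b n) (s : List ℕ) :
    ∀ᶠ q in l, hI (stg (B q)) s = hI (stg b) s := by
  induction s with
  | nil =>
    filter_upwards [hb (Encodable.encode ([] : List ℕ) + 1)] with q h2
    simp only [hI, stg, h2]
  | cons n s ih =>
    filter_upwards [ih, hb (Encodable.encode (n :: s) + 1)] with q h1 h2
    simp only [hI, h1, stg, h2]

theorem winII_limit [l.NeBot] (hx : ∀ n, ∀ᶠ q in l, X q n = x n)
    (hb : ∀ n, ∀ᶠ q in l, B q n = b n) (h : ∀ᶠ q in l, WinII (X q) (B q)) : WinII x b := by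
  refine ⟨?_, fun s hs => ?_⟩
  · obtain ⟨q, h1, h2⟩ := (h.and (hb 0)).exists
    rw [← h2]
    exact h1.1
  · obtain ⟨q, h1, h2, h3, h4⟩ := (h.and ((ev_InT hx 0 s).and
      ((ev_InT hx 1 (hII (stg b) s)).and (ev_hII hb s)))).exists
    rw [← h3, ← h4]
    exact h1.2 s (h2.2 hs)

theorem winI_limit [l.NeBot] (hx : ∀ n, ∀ᶠ q in l, X q n = x n)
    (hb : ∀ n, ∀ᶠ q in l, B q n = b n) (h : ∀ᶠ q in l, WinI (X q) (B q)) : WinI x b := by
  refine ⟨?_, fun s hs => ?_⟩
  · obtain ⟨q, h1, h2⟩ := (h.and (hb 0)).exists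
    rw [← h2]
    exact h1.1
  · obtain ⟨q, h1, h2, h3, h4⟩ := (h.and ((ev_InT hx 1 s).and
      ((ev_InT hx 0 (hI (stg b) s)).and (ev_hI hb s)))).exists
    rw [← h3, ← h4]
    exact h1.2 s (h2.2 hs)

/-- A bounded family of functions converges coordinatewise along an ultrafilter. -/
theorem exists_limit {β : Type*} (U : Ultrafilter β) (B : β → ℕ → ℕ) (M : ℕ → ℕ)
    (h : ∀ n, ∀ᶠ q in (U : Filter β), B q n ≤ M n) :
    ∃ b : ℕ → ℕ, ∀ n, ∀ᶠ q in (U : Filter β), B q n = b n := by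
  have key : ∀ n, ∃ k, ∀ᶠ q in (U : Filter β), B q n = k := by
    intro n
    have h1 : (⋃ k ∈ Set.Iic (M n), {q | B q n = k}) ∈ U := by
      filter_upwards [h n] with q hq
      simp only [mem_iUnion, mem_ofPred_eq, exists_prop, mem_Iic]
      exact ⟨_, hq, rfl⟩
    obtain ⟨k, _, hk⟩ := (Ultrafilter.finite_biUnion_mem_iff (Set.finite_Iic (M n))).1 h1
    exact ⟨k, hk⟩
  exact ⟨fun n => (key n).choose, fun n => (key n).choose_spec⟩

end ev

/-- The pairs `(x, y)` such that `y` dominates a strategy of the second player. -/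
def PII : Set ((ℕ → ℕ) × InfSets) := {p | ∃ b, WinII p.1 b ∧ ∀ n, b n ≤ el p.2 n}

/-- The pairs `(x, y)` such that `y` dominates a strategy of the first player. -/
def PI : Set ((ℕ → ℕ) × InfSets) := {p | ∃ b, WinI p.1 b ∧ ∀ n, b n ≤ el p.2 n}

theorem ev_coords {p : (ℕ → ℕ) × InfSets} {U : Filter ((ℕ → ℕ) × InfSets)} (hU : U ≤ 𝓝 p) (n : ℕ) :
    ∀ᶠ q in U, q.1 n = p.1 n ∧ el q.2 n = el p.2 n := by
  have h1 : Continuous (fun q : (ℕ → ℕ) × InfSets => q.1 n) :=
    (continuous_apply n).comp continuous_fst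
  have h2 : Continuous (fun q : (ℕ → ℕ) × InfSets => el q.2 n) :=
    (continuous_el n).comp continuous_snd
  have e1 : ∀ᶠ q in 𝓝 p, q.1 n = p.1 n := by
    have := h1.continuousAt (x := p)
    rw [ContinuousAt, nhds_discrete ℕ, tendsto_pure] at this
    exact this
  have e2 : ∀ᶠ q in 𝓝 p, el q.2 n = el p.2 n := by
    have := h2.continuousAt (x := p)
    rw [ContinuousAt, nhds_discrete ℕ, tendsto_pure] at this
    exact this
  exact hU (e1.and e2)

theorem isClosed_aux (R : (ℕ → ℕ) → (ℕ → ℕ) → Prop)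
    (hR : ∀ (U : Ultrafilter ((ℕ → ℕ) × InfSets)) (x b : ℕ → ℕ)
      (B : (ℕ → ℕ) × InfSets → ℕ → ℕ), (∀ n, ∀ᶠ q in (U : Filter ((ℕ → ℕ) × InfSets)), q.1 n = x n) →
      (∀ n, ∀ᶠ q in (U : Filter ((ℕ → ℕ) × InfSets)), B q n = b n) →
      (∀ᶠ q in (U : Filter ((ℕ → ℕ) × InfSets)), R q.1 (B q)) → R x b) :
    IsClosed {p : (ℕ → ℕ) × InfSets | ∃ b, R p.1 b ∧ ∀ n, b n ≤ el p.2 n} := by
  classical
  rw [isClosed_iff_ultrafilter]
  intro p U hU hmem
  let B : (ℕ → ℕ) × InfSets → ℕ → ℕ := fun q =>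
    if h : ∃ b, R q.1 b ∧ ∀ n, b n ≤ el q.2 n then h.choose else 0
  have hB : ∀ᶠ q in (U : Filter ((ℕ → ℕ) × InfSets)), R q.1 (B q) ∧ ∀ n, B q n ≤ el q.2 n := by
    filter_upwards [hmem] with q hq
    have hq' : ∃ b, R q.1 b ∧ ∀ n, b n ≤ el q.2 n := hq
    simp only [B, dif_pos hq']
    exact hq'.choose_spec
  have hbd : ∀ n, ∀ᶠ q in (U : Filter ((ℕ → ℕ) × InfSets)), B q n ≤ el p.2 n := by
    intro n
    filter_upwards [hB, ev_coords hU n] with q h1 h2
    rw [← h2.2]
    exact h1.2 n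
  obtain ⟨b, hb⟩ := exists_limit U B _ hbd
  refine ⟨b, hR U p.1 b B (fun n => (ev_coords hU n).mono fun q h => h.1) hb
    (hB.mono fun q h => h.1), fun n => ?_⟩
  obtain ⟨q, h1, h2⟩ := ((hb n).and (hbd n)).exists
  rw [← h1]
  exact h2

theorem isClosed_PII : IsClosed PII :=
  isClosed_aux WinII fun _ _ _ _ h1 h2 h3 => winII_limit h1 h2 h3

theorem isClosed_PI : IsClosed PI :=
  isClosed_aux WinI fun _ _ _ _ h1 h2 h3 => winI_limit h1 h2 h3

end Pool.Agent.Q306.SG
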